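import Mathlib
import Pool.Agent.Q239.ABC.Sphere

/-! Maps of the triples `a + b = c` to special triples: all the numerical data. -/

namespace Pool.Agent.Q239.ABC

/-- Every triple is mapped to a triple of the class `P` by a map of degree `D` which is unramified
outside of `a b c = 0`: size, radical, prime divisors. -/
def Trans (P : ℕ → ℕ → ℕ → Prop) (D : ℕ) : Prop :=
  1 ≤ D ∧ ∃ K M n0 : ℕ, 1 ≤ K ∧ 1 ≤ M ∧
    ∀ a b c : ℕ, 0 < a → 0 < b → Nat.Coprime a b → a + b = c → n0 ≤ c →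
      ∃ a' b' c' : ℕ, 0 < a' ∧ 0 < b' ∧ Nat.Coprime a' b' ∧ a' + b' = c' ∧ P a' b' c' ∧
        c ^ D ≤ K * c' ∧ c' ≤ K * c ^ D ∧ R (a' * b' * c') ≤ K * R (a * b * c) * c ^ (D - 1) ∧
        ∀ p : ℕ, p.Prime → p ∣ a * b * c → p ∣ M * (a' * b' * c')

theorem Trans.abc {P : ℕ → ℕ → ℕ → Prop} {D : ℕ} (h : Trans P D) (hP : ABCFor P) :
    ABCFor (fun _ _ _ => True) := by
  obtain ⟨hD, K, M, n0, hK, -, h⟩ := h
  refine transfer (n0 := n0) hD hK (fun a b c ha hb hab hc hn => ?_) hP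
  obtain ⟨a', b', c', h1, h2, h3, h4, h5, h6, -, h7, -⟩ := h a b c ha hb hab hc hn
  exact ⟨a', b', c', h1, h2, h3, h4, h5, h6, h7⟩

theorem trans_one_k_k (k : ℕ) (hk : 1 ≤ k) : Trans (Powers 1 k k) k := by
  refine ⟨hk, k, 1, 0, hk, le_rfl, ?_⟩
  intro a b c ha hb hab hc _
  set S := ∑ i ∈ Finset.range k, (a + b) ^ i * a ^ (k - 1 - i) with hS
  have hcpos : 0 < c := by omega
  have hSpos : 0 < S := by
    apply Finset.sum_pos
    · intro i _; positivity
    · exact Finset.nonempty_range_iff.mpr (by omega)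
  have hSle : S ≤ k * c ^ (k - 1) := by
    rw [hS]
    calc ∑ i ∈ Finset.range k, (a + b) ^ i * a ^ (k - 1 - i)
        ≤ ∑ _i ∈ Finset.range k, c ^ (k - 1) := by
          apply Finset.sum_le_sum
          intro i hi
          have hi' := Finset.mem_range.mp hi
          calc (a + b) ^ i * a ^ (k - 1 - i) ≤ c ^ i * c ^ (k - 1 - i) := by
                gcongr <;> omega
            _ = c ^ (k - 1) := by rw [← pow_add]; congr 1; omega
      _ = k * c ^ (k - 1) := by simp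
  have hid := geom_id a b k
  rw [← hS, hc] at hid
  have hcopr : Nat.Coprime (a ^ k) (b * S) := by
    have h1 : Nat.Coprime (a ^ k) (c ^ k) := by
      apply Nat.Coprime.pow
      rw [← hc]
      simpa using hab
    have h2 : Nat.Coprime (a ^ k) (a ^ k + b * S) := by rw [← hid]; exact h1
    simpa using h2
  refine ⟨a ^ k, b * S, c ^ k, by positivity, by positivity, hcopr, hid.symm,
    ⟨b * S, a, c, by rw [pow_one]; exact List.Perm.swap _ _ _⟩,
    Nat.le_mul_of_pos_left _ hk, Nat.le_mul_of_pos_left _ hk, ?_, ?_⟩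
  rotate_left
  · intro p hp hd
    rw [one_mul]
    rcases hp.dvd_mul.mp hd with h2 | h2
    · rcases hp.dvd_mul.mp h2 with h3 | h3
      · exact Dvd.dvd.mul_right (Dvd.dvd.mul_right (dvd_pow h3 (by omega)) _) _
      · exact Dvd.dvd.mul_right (Dvd.dvd.mul_left (Dvd.dvd.mul_right h3 _) _) _
    · exact Dvd.dvd.mul_left (dvd_pow h2 (by omega)) _
  have h1 : R (a ^ k * (b * S) * c ^ k) ≤ 1 * R (a * b * c) * S := by
    apply R_le_of one_ne_zero hSpos.ne' _ (by positivity)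
    intro p hp hd
    rw [one_mul]
    rcases hp.dvd_mul.mp hd with h2 | h2
    · rcases hp.dvd_mul.mp h2 with h3 | h3
      · have := hp.dvd_of_dvd_pow h3
        exact Dvd.dvd.mul_right (Dvd.dvd.mul_right (Dvd.dvd.mul_right this _) _) _
      · rcases hp.dvd_mul.mp h3 with h4 | h4
        · exact Dvd.dvd.mul_right (Dvd.dvd.mul_right (Dvd.dvd.mul_left h4 _) _) _
        · exact Dvd.dvd.mul_left h4 _
    · have := hp.dvd_of_dvd_pow h2
      exact Dvd.dvd.mul_right (Dvd.dvd.mul_left this _) _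
  calc R (a ^ k * (b * S) * c ^ k) ≤ 1 * R (a * b * c) * S := h1
    _ ≤ 1 * R (a * b * c) * (k * c ^ (k - 1)) := by gcongr
    _ = _ := by ring


theorem trans_two_two_k (k : ℕ) (hk : 1 ≤ k) : Trans (Powers 2 2 k) (2 * k) := by
  refine ⟨by omega, 4 * 4 ^ k + 2 * k, 4, 3,
    (by have : 0 < 4 ^ k := by positivity
        omega), by norm_num, ?_⟩
  intro a b c ha hb hab hc h3
  obtain ⟨u, v, w, hvu, hv, hou, hov, huv, hw, hprod, hcu, huc⟩ := odd_pair hab hc h3 ha hb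
  obtain ⟨X, hX⟩ : 2 ∣ u ^ k + v ^ k := (hou.pow.add_odd hov.pow).two_dvd
  have hlt : v ^ k < u ^ k := Nat.pow_lt_pow_left hvu (by omega)
  obtain ⟨Y, hY⟩ : 2 ∣ u ^ k - v ^ k := (Nat.Odd.sub_odd hou.pow hov.pow).two_dvd
  have hYpos : 0 < Y := by omega
  have hXY : X = Y + v ^ k := by omega
  have hu' : u ^ k = X + Y := by omega
  have hid : Y ^ 2 + (u * v) ^ k = X ^ 2 := by
    rw [mul_pow, hu', hXY]; ring
  have hupos : 0 < u := by omega
  have hcop : Nat.Coprime (Y ^ 2) ((u * v) ^ k) := by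
    apply Nat.Coprime.pow
    apply Nat.Coprime.mul_right
    · -- `Y` and `u`
      apply Nat.Coprime.symm
      rw [Nat.coprime_iff_gcd_eq_one] at *
      by_contra hne
      obtain ⟨p, hp, hpu, hpY⟩ := Nat.Prime.not_coprime_iff_dvd.mp hne
      have h1 : p ∣ u ^ k - v ^ k := by rw [hY]; exact Dvd.dvd.mul_left hpY 2
      have h2 : p ∣ u ^ k := dvd_pow hpu (by omega)
      have h3' : p ∣ v ^ k := (Nat.dvd_sub_iff_right hlt.le h2).mp h1
      have h4 := hp.dvd_of_dvd_pow h3'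
      have := Nat.dvd_gcd hpu h4
      rw [huv] at this
      exact hp.one_lt.ne' (Nat.dvd_one.mp this)
    · apply Nat.Coprime.symm
      rw [Nat.coprime_iff_gcd_eq_one] at *
      by_contra hne
      obtain ⟨p, hp, hpv, hpY⟩ := Nat.Prime.not_coprime_iff_dvd.mp hne
      have h1 : p ∣ u ^ k - v ^ k := by rw [hY]; exact Dvd.dvd.mul_left hpY 2
      have h2 : p ∣ v ^ k := dvd_pow hpv (by omega)
      have h3' : p ∣ u ^ k := by
        have := dvd_add h1 h2
        rwa [Nat.sub_add_cancel hlt.le] at this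
      have h4 := hp.dvd_of_dvd_pow h3'
      have := Nat.dvd_gcd h4 hpv
      rw [huv] at this
      exact hp.one_lt.ne' (Nat.dvd_one.mp this)
  have hXu : u ^ k ≤ 2 * X := by omega
  have hcpos : 0 < c := by omega
  have hSex : ∃ S : ℕ, u ^ (2 * k) - v ^ (2 * k) = w * S := by
    rcases hw with h | h
    · rw [h]; exact Nat.sub_dvd_pow_sub_pow _ _ _
    · rw [h, pow_mul, pow_mul]
      refine dvd_trans ?_ (Nat.sub_dvd_pow_sub_pow (u ^ 2) (v ^ 2) k)
      rw [Nat.sq_sub_sq]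
      exact dvd_mul_right _ _
  have h4XY' : 4 * (X * Y) = u ^ (2 * k) - v ^ (2 * k) := by
    rw [pow_mul', pow_mul', hu']
    have : v ^ k = X - Y := by omega
    rw [this, Nat.sq_sub_sq]
    have e1 : X + Y + (X - Y) = 2 * X := by omega
    have e2 : X + Y - (X - Y) = 2 * Y := by omega
    rw [e1, e2]; ring
  have hXc : X ≤ c ^ k := by
    calc X ≤ u ^ k := by omega
      _ ≤ c ^ k := by gcongr
  refine ⟨Y ^ 2, (u * v) ^ k, X ^ 2, by positivity, by positivity, hcop, hid,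
    ⟨Y, X, u * v, ?_⟩, ?_, ?_, ?_, ?_⟩
  · exact List.Perm.cons _ (List.Perm.swap _ _ _)
  · calc c ^ (2 * k) ≤ (2 * u) ^ (2 * k) := by gcongr
      _ = 4 ^ k * (u ^ k) ^ 2 := by
          rw [mul_pow, pow_mul, ← pow_mul u, mul_comm k 2]; norm_num
      _ ≤ 4 ^ k * (2 * X) ^ 2 := by gcongr
      _ = (4 * 4 ^ k) * X ^ 2 := by ring
      _ ≤ (4 * 4 ^ k + 2 * k) * X ^ 2 := by gcongr; omega
  · calc X ^ 2 ≤ (c ^ k) ^ 2 := by gcongr
      _ = 1 * c ^ (2 * k) := by rw [← pow_mul, mul_comm k 2, one_mul]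
      _ ≤ _ := by
          gcongr
          have : 0 < 4 ^ k := by positivity
          omega
  · -- the radical
    have hwpos : 0 < w := by rcases hw with h | h <;> omega
    obtain ⟨S, hS, hSle, hSpos⟩ : ∃ S : ℕ, u ^ (2 * k) - v ^ (2 * k) = w * S ∧
        S ≤ 2 * k * c ^ (2 * k - 1) ∧ 0 < S := by
      have hlt2 : v ^ (2 * k) < u ^ (2 * k) := Nat.pow_lt_pow_left hvu (by omega)
      have hdvd : w ∣ u ^ (2 * k) - v ^ (2 * k) := by
        rcases hw with h | h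
        · rw [h]; exact Nat.sub_dvd_pow_sub_pow _ _ _
        · rw [h, pow_mul, pow_mul]
          refine dvd_trans ?_ (Nat.sub_dvd_pow_sub_pow (u ^ 2) (v ^ 2) k)
          rw [Nat.sq_sub_sq]
          exact dvd_mul_right _ _
      obtain ⟨S, hS⟩ := hdvd
      have hSpos : 0 < S := Nat.pos_of_ne_zero (by rintro rfl; omega)
      refine ⟨S, hS, ?_, hSpos⟩
      rcases hw with h | h
      · have g := geom_id v w (2 * k)
        have e : v + w = u := by omega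
        rw [e] at g
        have hS2 : w * S = w * ∑ i ∈ Finset.range (2 * k), u ^ i * v ^ (2 * k - 1 - i) := by
          rw [← hS, g]; simp
        have hS3 := Nat.eq_of_mul_eq_mul_left hwpos hS2
        rw [hS3]
        calc ∑ i ∈ Finset.range (2 * k), u ^ i * v ^ (2 * k - 1 - i)
            ≤ ∑ _i ∈ Finset.range (2 * k), c ^ (2 * k - 1) := by
              apply Finset.sum_le_sum
              intro i hi
              have hi' := Finset.mem_range.mp hi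
              calc u ^ i * v ^ (2 * k - 1 - i) ≤ c ^ i * c ^ (2 * k - 1 - i) := by
                    gcongr; omega
                _ = c ^ (2 * k - 1) := by rw [← pow_add]; congr 1; omega
          _ = _ := by simp
      · have h1 : u * S ≤ u * u ^ (2 * k - 1) := by
          calc u * S ≤ w * S := by gcongr; omega
            _ = u ^ (2 * k) - v ^ (2 * k) := hS.symm
            _ ≤ u ^ (2 * k) := Nat.sub_le _ _
            _ = u * u ^ (2 * k - 1) := by rw [← pow_succ']; congr 1; omega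
        calc S ≤ u ^ (2 * k - 1) := Nat.le_of_mul_le_mul_left h1 hupos
          _ ≤ c ^ (2 * k - 1) := by gcongr
          _ ≤ 2 * k * c ^ (2 * k - 1) := Nat.le_mul_of_pos_left _ (by omega)
    have h4XY : 4 * (X * Y) = w * S := by
      rw [← hS, pow_mul', pow_mul', hu']
      have : v ^ k = X - Y := by omega
      rw [this, Nat.sq_sub_sq]
      have e1 : X + Y + (X - Y) = 2 * X := by omega
      have e2 : X + Y - (X - Y) = 2 * Y := by omega
      rw [e1, e2]; ring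
    have hR : R (Y ^ 2 * (u * v) ^ k * X ^ 2) ≤ 1 * R (a * b * c) * S := by
      apply R_le_of one_ne_zero hSpos.ne' _ (by positivity)
      intro p hp hd
      rw [one_mul, ← hprod]
      have key : p ∣ u * v ∨ p ∣ X * Y := by
        rcases hp.dvd_mul.mp hd with h2 | h2
        · rcases hp.dvd_mul.mp h2 with h4 | h4
          · exact Or.inr (Dvd.dvd.mul_left (hp.dvd_of_dvd_pow h4) _)
          · exact Or.inl (hp.dvd_of_dvd_pow h4)
        · exact Or.inr (Dvd.dvd.mul_right (hp.dvd_of_dvd_pow h2) _)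
      rcases key with h2 | h2
      · exact Dvd.dvd.mul_right (Dvd.dvd.mul_right h2 _) _
      · have : p ∣ w * S := by rw [← h4XY]; exact Dvd.dvd.mul_left h2 _
        rcases hp.dvd_mul.mp this with h4 | h4
        · exact Dvd.dvd.mul_right (Dvd.dvd.mul_left h4 _) _
        · exact Dvd.dvd.mul_left h4 _
    calc R (Y ^ 2 * (u * v) ^ k * X ^ 2) ≤ 1 * R (a * b * c) * S := hR
      _ ≤ 1 * R (a * b * c) * (2 * k * c ^ (2 * k - 1)) := by gcongr
      _ = (2 * k) * R (a * b * c) * c ^ (2 * k - 1) := by ring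
      _ ≤ _ := by gcongr; omega
  · intro p hp hd
    rw [← hprod] at hd
    rcases hp.dvd_mul.mp hd with h2 | h2
    · exact Dvd.dvd.mul_left (Dvd.dvd.mul_right (Dvd.dvd.mul_left (dvd_pow h2 (by omega)) _) _) _
    · obtain ⟨S, hS⟩ := hSex
      have h4 : p ∣ 4 * (X * Y) := by rw [h4XY', hS]; exact Dvd.dvd.mul_right h2 _
      refine h4.trans ⟨Y * (u * v) ^ k * X, by ring⟩


/-- positive integers from `x ^ 3 + y ^ 3 = z ^ 2` -/
lemma cubes_nat2 {x y z : ℤ} (hx : x ≠ 0) (hy : y ≠ 0) (hz : z ≠ 0) (h : x ^ 3 + y ^ 3 = z ^ 2)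
    (hg : Int.gcd x y = 1) :
    ∃ a b c : ℕ, 0 < a ∧ 0 < b ∧ Nat.Coprime a b ∧ a + b = c ∧ Powers 2 3 3 a b c ∧
      a * b * c = x.natAbs ^ 3 * y.natAbs ^ 3 * z.natAbs ^ 2 ∧
      x.natAbs ^ 3 ≤ c ∧ y.natAbs ^ 3 ≤ c ∧ c ≤ x.natAbs ^ 3 + y.natAbs ^ 3 := by
  have hx' := Int.natAbs_pos.mpr hx
  have hy' := Int.natAbs_pos.mpr hy
  have hz' := Int.natAbs_pos.mpr hz
  have hcop : Nat.Coprime (x.natAbs ^ 3) (y.natAbs ^ 3) := Nat.Coprime.pow _ _ hg
  have hzz : (z.natAbs : ℤ) ^ 2 = z ^ 2 := Int.natAbs_sq z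
  have hxx : 0 < x.natAbs ^ 3 := by positivity
  have hyy : 0 < y.natAbs ^ 3 := by positivity
  have hzp : 0 < z ^ 2 := by positivity
  rcases lt_or_gt_of_ne hx with hx0 | hx0 <;> rcases lt_or_gt_of_ne hy with hy0 | hy0
  · exfalso
    have h1 : x ^ 3 < 0 := by
      have : Odd 3 := by decide
      exact this.pow_neg hx0
    have h2 : y ^ 3 < 0 := by
      have : Odd 3 := by decide
      exact this.pow_neg hy0
    linarith
  · have e1 : (x.natAbs : ℤ) = -x := by omega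
    have e2 : (y.natAbs : ℤ) = y := by omega
    have hsum : z.natAbs ^ 2 + x.natAbs ^ 3 = y.natAbs ^ 3 := by
      have : ((z.natAbs : ℤ) ^ 2 + (x.natAbs : ℤ) ^ 3 = (y.natAbs : ℤ) ^ 3) := by
        rw [hzz, e1, e2, ← h]; ring
      exact_mod_cast this
    refine ⟨z.natAbs ^ 2, x.natAbs ^ 3, y.natAbs ^ 3, by positivity, hxx, ?_, hsum,
      ⟨z.natAbs, x.natAbs, y.natAbs, List.Perm.refl _⟩, by ring, by omega, le_rfl, by omega⟩
    have : Nat.Coprime (z.natAbs ^ 2 + x.natAbs ^ 3) (x.natAbs ^ 3) := by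
      rw [hsum]; exact hcop.symm
    exact Nat.coprime_add_self_left.mp this
  · have e1 : (x.natAbs : ℤ) = x := by omega
    have e2 : (y.natAbs : ℤ) = -y := by omega
    have hsum : z.natAbs ^ 2 + y.natAbs ^ 3 = x.natAbs ^ 3 := by
      have : ((z.natAbs : ℤ) ^ 2 + (y.natAbs : ℤ) ^ 3 = (x.natAbs : ℤ) ^ 3) := by
        rw [hzz, e1, e2, ← h]; ring
      exact_mod_cast this
    refine ⟨z.natAbs ^ 2, y.natAbs ^ 3, x.natAbs ^ 3, by positivity, hyy, ?_, hsum,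
      ⟨z.natAbs, y.natAbs, x.natAbs, List.Perm.refl _⟩, by ring, le_rfl, by omega, by omega⟩
    have : Nat.Coprime (z.natAbs ^ 2 + y.natAbs ^ 3) (y.natAbs ^ 3) := by
      rw [hsum]; exact hcop
    exact Nat.coprime_add_self_left.mp this
  · have e1 : (x.natAbs : ℤ) = x := by omega
    have e2 : (y.natAbs : ℤ) = y := by omega
    have hsum : x.natAbs ^ 3 + y.natAbs ^ 3 = z.natAbs ^ 2 := by
      have : ((x.natAbs : ℤ) ^ 3 + (y.natAbs : ℤ) ^ 3 = (z.natAbs : ℤ) ^ 2) := by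
        rw [hzz, e1, e2, ← h]
      exact_mod_cast this
    refine ⟨x.natAbs ^ 3, y.natAbs ^ 3, z.natAbs ^ 2, hxx, hyy, hcop, hsum,
      ⟨z.natAbs, x.natAbs, y.natAbs, ?_⟩, by ring, by omega, by omega, by omega⟩
    exact List.perm_append_comm (l₁ := [x.natAbs ^ 3, y.natAbs ^ 3]) (l₂ := [z.natAbs ^ 2])


theorem trans_two_three_three : Trans (Powers 2 3 3) 12 := by
  refine ⟨by norm_num, 2 ^ 12 * 200 ^ 3 + 4 * 1000, 1, 3, by norm_num, le_rfl, ?_⟩
  intro a b c ha hb hab hc h3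
  obtain ⟨u, v, huv, hodd, h3uv, hgcd, huc, hvc, hcm⟩ := good_pair hab hc ha hb
  set x : ℤ := u * (u ^ 3 + 8 * v ^ 3) with hx
  set y : ℤ := 4 * v * (v ^ 3 - u ^ 3) with hy
  set z : ℤ := u ^ 6 - 20 * u ^ 3 * v ^ 3 - 8 * v ^ 6 with hz
  have hid : x ^ 3 + y ^ 3 = z ^ 2 := by rw [hx, hy, hz]; ring
  have habc0 : u * v * (u - v) ≠ 0 := by
    intro h0
    rw [h0] at huv
    have : 0 < a * b * c := by positivity
    simp at huv
    omega
  have hu0 : u ≠ 0 := left_ne_zero_of_mul (left_ne_zero_of_mul habc0)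
  have hv0 : v ≠ 0 := right_ne_zero_of_mul (left_ne_zero_of_mul habc0)
  have hd0 : u - v ≠ 0 := right_ne_zero_of_mul habc0
  have hu3 : Odd (u ^ 3) := hodd.pow
  have hxo : Odd x := by
    rw [hx]
    apply hodd.mul
    apply hu3.add_even
    exact ⟨4 * v ^ 3, by ring⟩
  have hzo : Odd z := by
    rw [hz, show u ^ 6 - 20 * u ^ 3 * v ^ 3 - 8 * v ^ 6 =
      u ^ 6 + (-(20 * u ^ 3 * v ^ 3) - 8 * v ^ 6) by ring]
    apply hodd.pow.add_even
    exact ⟨-(10 * u ^ 3 * v ^ 3) - 4 * v ^ 6, by ring⟩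
  have hx0 : x ≠ 0 := by rintro h0; rw [h0] at hxo; exact absurd hxo (by decide)
  have hz0 : z ≠ 0 := by rintro h0; rw [h0] at hzo; exact absurd hzo (by decide)
  have hq0 : u ^ 2 + u * v + v ^ 2 ≠ 0 := by
    have : 0 < u ^ 2 + u * v + v ^ 2 := by
      nlinarith [sq_nonneg (u + v), sq_pos_of_ne_zero hu0, sq_pos_of_ne_zero hv0]
    exact this.ne'
  have hy' : y = -(4 * v * (u - v) * (u ^ 2 + u * v + v ^ 2)) := by rw [hy]; ring
  have hy0 : y ≠ 0 := by
    rw [hy']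
    exact neg_ne_zero.mpr (mul_ne_zero (mul_ne_zero (mul_ne_zero (by norm_num) hv0) hd0) hq0)
  have hg : Int.gcd x y = 1 := by
    by_contra hne
    obtain ⟨p, hp, hpx, hpy⟩ := Nat.Prime.not_coprime_iff_dvd.mp (show ¬ Nat.Coprime x.natAbs y.natAbs from hne)
    have hpi := Nat.prime_iff_prime_int.mp hp
    have hpx' : (p : ℤ) ∣ x := Int.natCast_dvd.mpr hpx
    have hpy' : (p : ℤ) ∣ y := Int.natCast_dvd.mpr hpy
    have hnuv : ¬ ((p : ℤ) ∣ u ∧ (p : ℤ) ∣ v) := by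
      rintro ⟨h1, h2⟩
      have h4 : (p : ℤ) ∣ (Int.gcd u v : ℤ) := Int.dvd_coe_gcd h1 h2
      rw [hgcd] at h4
      have h5 : p ∣ 1 := by exact_mod_cast h4
      exact hp.one_lt.ne' (Nat.dvd_one.mp h5)
    have hp2 : p ≠ 2 := by
      rintro rfl
      have h1 : Even x := even_iff_two_dvd.mpr (by exact_mod_cast hpx')
      exact (Int.not_even_iff_odd.mpr hxo) h1
    have hpy2 : (p : ℤ) ∣ v ∨ (p : ℤ) ∣ v ^ 3 - u ^ 3 := by
      rw [hy] at hpy'
      rcases hpi.dvd_or_dvd hpy' with h1 | h1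
      · rcases hpi.dvd_or_dvd h1 with h2 | h2
        · exfalso
          have h4 : (p : ℤ) ∣ (2 : ℤ) := hpi.dvd_of_dvd_pow (n := 2) (by norm_num; exact h2)
          have h5 : p ∣ 2 := by exact_mod_cast h4
          exact hp2 ((Nat.prime_dvd_prime_iff_eq hp Nat.prime_two).mp h5)
        · exact Or.inl h2
      · exact Or.inr h1
    rw [hx] at hpx'
    rcases hpi.dvd_or_dvd hpx' with h1 | h1
    · rcases hpy2 with h2 | h2
      · exact hnuv ⟨h1, h2⟩
      · apply hnuv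
        refine ⟨h1, hpi.dvd_of_dvd_pow (n := 3) ?_⟩
        have h4 : (p : ℤ) ∣ u ^ 3 := dvd_pow h1 (by norm_num)
        have := dvd_add h2 h4
        rwa [sub_add_cancel] at this
    · rcases hpy2 with h2 | h2
      · apply hnuv
        refine ⟨hpi.dvd_of_dvd_pow (n := 3) ?_, h2⟩
        have h4 : (p : ℤ) ∣ 8 * v ^ 3 := Dvd.dvd.mul_left (dvd_pow h2 (by norm_num)) 8
        have := dvd_sub h1 h4
        rwa [add_sub_cancel_right] at this
      · have h4 : (p : ℤ) ∣ 9 * v ^ 3 := by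
          have := dvd_add h1 h2
          have e : u ^ 3 + 8 * v ^ 3 + (v ^ 3 - u ^ 3) = 9 * v ^ 3 := by ring
          rwa [e] at this
        rcases hpi.dvd_or_dvd h4 with h5 | h5
        · have h6 : (p : ℤ) ∣ (3 : ℤ) := hpi.dvd_of_dvd_pow (n := 2) (by norm_num; exact h5)
          have h7 : p ∣ 3 := by exact_mod_cast h6
          have h8 := (Nat.prime_dvd_prime_iff_eq hp Nat.prime_three).mp h7
          subst h8
          apply h3uv
          have h9 : ((3 : ℕ) : ℤ) ∣ u - v := by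
            have h10 : (((3 : ℕ) : ℤ)) ∣ (u - v) ^ 3 := by
              have e : (u - v) ^ 3 = -(v ^ 3 - u ^ 3) + 3 * (u * v * (v - u)) := by ring
              rw [e]
              exact dvd_add ((dvd_neg).mpr h2) (by push_cast; exact dvd_mul_right _ _)
            exact hpi.dvd_of_dvd_pow h10
          exact_mod_cast h9
        · apply hnuv
          have h6 := hpi.dvd_of_dvd_pow h5
          refine ⟨hpi.dvd_of_dvd_pow (n := 3) ?_, h6⟩
          have h7 : (p : ℤ) ∣ 8 * v ^ 3 := Dvd.dvd.mul_left h5 8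
          have := dvd_sub h1 h7
          rwa [add_sub_cancel_right] at this
  obtain ⟨a', b', c', ha', hb', hab', hc', hP, hprod, hcx, hcy, hcup⟩ :=
    cubes_nat2 hx0 hy0 hz0 hid hg
  -- size
  have hszlo : sz (u, v) ^ 4 ≤ 200 * sz (x, y) := by
    have m0 := abs_le.mp (mono (x := (u, v)) 3 0)
    have m1 := abs_le.mp (mono (x := (u, v)) 2 1)
    have m2 := abs_le.mp (mono (x := (u, v)) 1 2)
    have m3 := abs_le.mp (mono (x := (u, v)) 0 3)
    norm_num at m0 m1 m2 m3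
    have := lo_of (x := (u, v)) (y := (x, y)) (d := 4) (e := 3) (N := 36) (C := 100)
      (a := 36 * u ^ 3 - 32 * v ^ 3) (b := 64 * (u * v ^ 2))
      (a' := 4 * (u ^ 2 * v)) (b' := u ^ 3 + 9 * v ^ 3)
      (by norm_num) (by simp only [hx, hy]; ring) (by simp only [hx, hy]; ring)
      (by rw [abs_le]; constructor <;> linarith) (by rw [abs_le]; constructor <;> linarith)
      (by rw [abs_le]; constructor <;> linarith) (by rw [abs_le]; constructor <;> linarith)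
      (by norm_num) (by norm_num)
    norm_num at this ⊢
    exact this
  have hszc : sz (x, y) ^ 3 ≤ c' := by
    unfold sz
    rcases max_choice |x| |y| with hm | hm
    · simp only [hm]; rw [← Int.natCast_natAbs]; exact_mod_cast hcx
    · simp only [hm]; rw [← Int.natCast_natAbs]; exact_mod_cast hcy
  have hs0 := sz_nonneg (u, v)
  have hs1 := sz_nonneg (x, y)
  have hcz0' : (0 : ℤ) ≤ c := by positivity
  refine ⟨a', b', c', ha', hb', hab', hc', hP, ?_, ?_, ?_, ?_⟩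
  · have : (c : ℤ) ^ 12 ≤ (2 ^ 12 * 200 ^ 3 + 4 * 1000 : ℕ) * c' := by
      calc (c : ℤ) ^ 12 ≤ (2 * sz (u, v)) ^ 12 := by gcongr; exact hcm
        _ = 2 ^ 12 * (sz (u, v) ^ 4) ^ 3 := by ring
        _ ≤ 2 ^ 12 * (200 * sz (x, y)) ^ 3 := by gcongr
        _ = (2 ^ 12 * 200 ^ 3) * sz (x, y) ^ 3 := by ring
        _ ≤ (2 ^ 12 * 200 ^ 3) * c' := by gcongr
        _ ≤ _ := by push_cast; gcongr; norm_num
    exact_mod_cast this
  · have hx9 : |x| ≤ 9 * (c : ℤ) ^ 4 := by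
      have h1 : |u ^ 3 + 8 * v ^ 3| ≤ 9 * (c : ℤ) ^ 3 := by
        calc |u ^ 3 + 8 * v ^ 3| ≤ |u ^ 3| + |8 * v ^ 3| := abs_add_le _ _
          _ = |u| ^ 3 + 8 * |v| ^ 3 := by rw [abs_pow, abs_mul, abs_pow]; norm_num
          _ ≤ (c : ℤ) ^ 3 + 8 * (c : ℤ) ^ 3 := by gcongr
          _ = _ := by ring
      rw [hx, abs_mul]
      calc |u| * |u ^ 3 + 8 * v ^ 3| ≤ c * (9 * (c : ℤ) ^ 3) := by gcongr
        _ = _ := by ring
    have hy9 : |y| ≤ 9 * (c : ℤ) ^ 4 := by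
      have h1 : |v ^ 3 - u ^ 3| ≤ 2 * (c : ℤ) ^ 3 := by
        calc |v ^ 3 - u ^ 3| ≤ |v ^ 3| + |u ^ 3| := abs_sub _ _
          _ = |v| ^ 3 + |u| ^ 3 := by rw [abs_pow, abs_pow]
          _ ≤ (c : ℤ) ^ 3 + (c : ℤ) ^ 3 := by gcongr
          _ = _ := by ring
      rw [hy, abs_mul, abs_mul]
      calc |4| * |v| * |v ^ 3 - u ^ 3| ≤ |4| * c * (2 * (c : ℤ) ^ 3) := by gcongr
        _ = 8 * (c : ℤ) ^ 4 := by norm_num; ring
        _ ≤ _ := by gcongr; norm_num
    have : (c' : ℤ) ≤ (2 ^ 12 * 200 ^ 3 + 4 * 1000 : ℕ) * (c : ℤ) ^ 12 := by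
      have h1 : (c' : ℤ) ≤ |x| ^ 3 + |y| ^ 3 := by
        rw [← Int.natCast_natAbs x, ← Int.natCast_natAbs y]; exact_mod_cast hcup
      calc (c' : ℤ) ≤ |x| ^ 3 + |y| ^ 3 := h1
        _ ≤ (9 * (c : ℤ) ^ 4) ^ 3 + (9 * (c : ℤ) ^ 4) ^ 3 := by gcongr
        _ = 1458 * (c : ℤ) ^ 12 := by ring
        _ ≤ _ := by push_cast; gcongr; norm_num
    exact_mod_cast this
  · -- radical
    set E : ℤ := (u ^ 3 + 8 * v ^ 3) * (u ^ 2 + u * v + v ^ 2) * z with hE
    have hE0 : E ≠ 0 := by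
      rw [hE]
      refine mul_ne_zero (mul_ne_zero ?_ hq0) hz0
      exact right_ne_zero_of_mul (by rw [← hx]; exact hx0)
    have hcz0 : (0 : ℤ) ≤ c := by positivity
    have hEle : |E| ≤ 1000 * (c : ℤ) ^ 11 := by
      have mm : ∀ i j : ℕ, |u ^ i * v ^ j| ≤ (c : ℤ) ^ (i + j) := by
        intro i j
        rw [abs_mul, abs_pow, abs_pow, pow_add]
        gcongr
      have b1 : |u ^ 3 + 8 * v ^ 3| ≤ 9 * (c : ℤ) ^ 3 := by
        have m0 := abs_le.mp (mm 3 0)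
        have m3 := abs_le.mp (mm 0 3)
        norm_num at m0 m3
        rw [abs_le]; constructor <;> linarith
      have b2 : |u ^ 2 + u * v + v ^ 2| ≤ 3 * (c : ℤ) ^ 2 := by
        have m0 := abs_le.mp (mm 2 0)
        have m1 := abs_le.mp (mm 1 1)
        have m3 := abs_le.mp (mm 0 2)
        norm_num at m0 m1 m3
        rw [abs_le]; constructor <;> linarith
      have b3 : |z| ≤ 29 * (c : ℤ) ^ 6 := by
        have m0 := abs_le.mp (mm 6 0)
        have m1 := abs_le.mp (mm 3 3)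
        have m3 := abs_le.mp (mm 0 6)
        norm_num at m0 m1 m3
        rw [abs_le, hz]; constructor <;> linarith
      rw [hE, abs_mul, abs_mul]
      calc |u ^ 3 + 8 * v ^ 3| * |u ^ 2 + u * v + v ^ 2| * |z|
          ≤ (9 * (c : ℤ) ^ 3) * (3 * (c : ℤ) ^ 2) * (29 * (c : ℤ) ^ 6) := by gcongr
        _ = 783 * (c : ℤ) ^ 11 := by ring
        _ ≤ _ := by gcongr; norm_num
    have hR : R (a' * b' * c') ≤ 4 * R (a * b * c) * E.natAbs := by
      apply R_le_of (by norm_num) (Int.natAbs_ne_zero.mpr hE0) _ (by positivity)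
      intro p hp hd
      have hpi := Nat.prime_iff_prime_int.mp hp
      have hxyz : (p : ℤ) ∣ x * y * z := by
        rw [hprod] at hd
        apply Int.natCast_dvd.mpr
        rw [Int.natAbs_mul, Int.natAbs_mul]
        rcases hp.dvd_mul.mp hd with h1 | h1
        · rcases hp.dvd_mul.mp h1 with h2 | h2
          · exact Dvd.dvd.mul_right (Dvd.dvd.mul_right (hp.dvd_of_dvd_pow h2) _) _
          · exact Dvd.dvd.mul_right (Dvd.dvd.mul_left (hp.dvd_of_dvd_pow h2) _) _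
        · exact Dvd.dvd.mul_left (hp.dvd_of_dvd_pow h1) _
      have e : x * y * z = -(4 * (u * v * (u - v)) * E) := by
        rw [hE, hy', hx]; ring
      rw [e, dvd_neg] at hxyz
      have h4 := Int.natCast_dvd.mp hxyz
      rw [Int.natAbs_mul, Int.natAbs_mul, huv] at h4
      exact h4
    have hR' : (R (a' * b' * c') : ℤ) ≤ (2 ^ 12 * 200 ^ 3 + 4 * 1000 : ℕ) * R (a * b * c) *
        (c : ℤ) ^ (12 - 1) := by
      calc (R (a' * b' * c') : ℤ) ≤ 4 * R (a * b * c) * |E| := by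
            rw [← Int.natCast_natAbs]; exact_mod_cast hR
        _ ≤ 4 * R (a * b * c) * (1000 * (c : ℤ) ^ 11) := by gcongr
        _ = (4 * 1000) * R (a * b * c) * (c : ℤ) ^ 11 := by ring
        _ ≤ _ := by push_cast; gcongr; norm_num
    exact_mod_cast hR'
  · intro p hp hd
    rw [one_mul, hprod]
    rw [← huv] at hd
    have e : x * y * z = -(4 * (u * v * (u - v)) * ((u ^ 3 + 8 * v ^ 3) *
        (u ^ 2 + u * v + v ^ 2) * z)) := by
      rw [hy', hx]; ring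
    have h4 : (p : ℤ) ∣ x * y * z := by
      rw [e, dvd_neg]
      exact Dvd.dvd.mul_right (Dvd.dvd.mul_left (Int.natCast_dvd.mpr hd) _) _
    have h5 := Int.natCast_dvd.mp h4
    rw [Int.natAbs_mul, Int.natAbs_mul] at h5
    refine h5.trans ⟨x.natAbs ^ 2 * y.natAbs ^ 2 * z.natAbs, by ring⟩


theorem extract2 {p q r U G : ℕ} (hp : 1 ≤ p ∧ p ≤ 6) (hq : 1 ≤ q ∧ q ≤ 6) (hr : 1 ≤ r ∧ r ≤ 6)
    {z : ℤ × ℤ} (hz : pr z ≠ 0) (hG : Int.gcd z.1 z.2 ≤ G) (hS : Shape p q r U z) :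
    ∃ a b c : ℕ, 0 < a ∧ 0 < b ∧ Nat.Coprime a b ∧ a + b = c ∧
      (∃ u v w x y t : ℕ, [a, b, c].Perm [u * x ^ p, v * y ^ q, w * t ^ r] ∧
        u ≤ U * G ^ 6 ∧ v ≤ U * G ^ 6 ∧ w ≤ U * G ^ 6) ∧
      sz z ≤ G * c ∧ R (a * b * c) ≤ R (pr z).natAbs ∧ (c : ℤ) ≤ 2 * sz z ∧
      ∀ l : ℕ, l.Prime → (l : ℤ) ∣ pr z → l ∣ G.factorial * (a * b * c) := by
  obtain ⟨u, v, w, y0, y1, y2, h0, h1, h2, hu, hv, hw⟩ := hS
  have hg : 0 < Int.gcd z.1 z.2 := gcd_pos hz
  set g := Int.gcd z.1 z.2 with hgdef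
  obtain ⟨s, hs⟩ : (g : ℤ) ∣ z.1 := Int.gcd_dvd_left _ _
  obtain ⟨t, ht⟩ : (g : ℤ) ∣ z.2 := Int.gcd_dvd_right _ _
  have hgz : (g : ℤ) ≠ 0 := by exact_mod_cast hg.ne'
  have hst : Int.gcd s t = 1 := by
    have : Int.gcd ((g : ℤ) * s) ((g : ℤ) * t) = g := by rw [← hs, ← ht]
    rw [Int.gcd_mul_left, Int.natAbs_natCast] at this
    exact Nat.eq_of_mul_eq_mul_left hg (by rw [this, mul_one])
  have hpr : pr z = g ^ 3 * (s * t * (s + t)) := by unfold pr; rw [hs, ht]; ring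
  have hs0 : s ≠ 0 := by rintro rfl; apply hz; rw [hpr]; ring
  have ht0 : t ≠ 0 := by rintro rfl; apply hz; rw [hpr]; ring
  have hst0 : s + t ≠ 0 := by intro h; apply hz; rw [hpr, h]; ring
  obtain ⟨u', x0, e0, b0⟩ := abs_shape (s := s + t) hp.1 hp.2 hg hG (by rw [hs, ht]; ring) h0 hu
  obtain ⟨v', x1, e1, b1⟩ := abs_shape hq.1 hq.2 hg hG hs h1 hv
  obtain ⟨w', x2, e2, b2⟩ := abs_shape hr.1 hr.2 hg hG ht h2 hw
  have c12 : Nat.Coprime s.natAbs t.natAbs := hst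
  have c02 : Nat.Coprime (s + t).natAbs t.natAbs := by
    show Int.gcd (s + t) t = 1
    rw [Int.gcd_add_self_left]
    exact hst
  have c01 : Nat.Coprime (s + t).natAbs s.natAbs := by
    show Int.gcd (s + t) s = 1
    rw [add_comm, Int.gcd_add_self_left, Int.gcd_comm]
    exact hst
  have hRle : R (s.natAbs * t.natAbs * (s + t).natAbs) ≤ R (pr z).natAbs := by
    apply R_mono _ (Int.natAbs_ne_zero.mpr hz)
    rw [hpr, Int.natAbs_mul, Int.natAbs_mul, Int.natAbs_mul]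
    exact dvd_mul_left _ _
  have hsz : ∀ c : ℕ, s.natAbs ≤ c → t.natAbs ≤ c → sz z ≤ G * c := by
    intro c hc1 hc2
    have k1 : |s| ≤ c := by rw [← Int.natCast_natAbs]; exact_mod_cast hc1
    have k2 : |t| ≤ c := by rw [← Int.natCast_natAbs]; exact_mod_cast hc2
    have k3 : (g : ℤ) ≤ G := by exact_mod_cast hG
    apply max_le
    · rw [hs, abs_mul, Nat.abs_cast]
      exact mul_le_mul k3 k1 (abs_nonneg _) (by positivity)
    · rw [ht, abs_mul, Nat.abs_cast]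
      exact mul_le_mul k3 k2 (abs_nonneg _) (by positivity)
  have hup : (s.natAbs : ℤ) ≤ 2 * sz z ∧ (t.natAbs : ℤ) ≤ 2 * sz z ∧
      ((s + t).natAbs : ℤ) ≤ 2 * sz z := by
    have hg1 : (1 : ℤ) ≤ g := by exact_mod_cast hg
    have k1 : |s| ≤ sz z := by
      calc |s| = 1 * |s| := (one_mul _).symm
        _ ≤ g * |s| := by gcongr
        _ = |z.1| := by rw [hs, abs_mul, Nat.abs_cast]
        _ ≤ sz z := le_max_left _ _
    have k2 : |t| ≤ sz z := by
      calc |t| = 1 * |t| := (one_mul _).symm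
        _ ≤ g * |t| := by gcongr
        _ = |z.2| := by rw [ht, abs_mul, Nat.abs_cast]
        _ ≤ sz z := le_max_right _ _
    have k3 := sz_nonneg z
    rw [Int.natCast_natAbs, Int.natCast_natAbs, Int.natCast_natAbs]
    refine ⟨by linarith, by linarith, (abs_add_le _ _).trans (by linarith)⟩
  have hdv : ∀ l : ℕ, l.Prime → (l : ℤ) ∣ pr z →
      l ∣ G.factorial * (s.natAbs * t.natAbs * (s + t).natAbs) := by
    intro l hl h
    rw [hpr] at h
    rcases (Nat.prime_iff_prime_int.mp hl).dvd_or_dvd h with h' | h'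
    · have h6 : (l : ℤ) ∣ (g : ℤ) := (Nat.prime_iff_prime_int.mp hl).dvd_of_dvd_pow h'
      have h7 : l ∣ g := by exact_mod_cast h6
      have h8 : l ≤ G := (Nat.le_of_dvd hg h7).trans hG
      exact Dvd.dvd.mul_right (Nat.dvd_factorial hl.pos h8) _
    · have h6 := Int.natCast_dvd.mp h'
      rw [Int.natAbs_mul, Int.natAbs_mul] at h6
      exact Dvd.dvd.mul_left h6 _
  have hspos := Int.natAbs_pos.mpr hs0
  have htpos := Int.natAbs_pos.mpr ht0
  have hstpos := Int.natAbs_pos.mpr hst0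
  have cases3 : s.natAbs + t.natAbs = (s + t).natAbs ∨ (s + t).natAbs + t.natAbs = s.natAbs ∨
      (s + t).natAbs + s.natAbs = t.natAbs := by omega
  rcases cases3 with h | h | h
  · refine ⟨s.natAbs, t.natAbs, (s + t).natAbs, hspos, htpos, c12, h,
      ⟨u', v', w', x0, x1, x2, ?_, b0, b1, b2⟩, hsz _ (by omega) (by omega), hRle,
      hup.2.2, hdv⟩
    rw [← e0, ← e1, ← e2]
    exact List.perm_append_comm (l₁ := [s.natAbs, t.natAbs]) (l₂ := [(s + t).natAbs])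
  · refine ⟨(s + t).natAbs, t.natAbs, s.natAbs, hstpos, htpos, c02, h,
      ⟨u', v', w', x0, x1, x2, ?_, b0, b1, b2⟩, hsz _ (by omega) (by omega), ?_,
      hup.1, ?_⟩
    · rw [← e0, ← e1, ← e2]
      exact List.Perm.cons _ (List.Perm.swap _ _ _)
    · rw [show (s + t).natAbs * t.natAbs * s.natAbs = s.natAbs * t.natAbs * (s + t).natAbs by ring]
      exact hRle
    · rw [show (s + t).natAbs * t.natAbs * s.natAbs = s.natAbs * t.natAbs * (s + t).natAbs by ring]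
      exact hdv
  · refine ⟨(s + t).natAbs, s.natAbs, t.natAbs, hstpos, hspos, c01, h,
      ⟨u', v', w', x0, x1, x2, ?_, b0, b1, b2⟩, hsz _ (by omega) (by omega), ?_,
      hup.2.1, ?_⟩
    · rw [← e0, ← e1, ← e2]
    · rw [show (s + t).natAbs * s.natAbs * t.natAbs = s.natAbs * t.natAbs * (s + t).natAbs by ring]
      exact hRle
    · rw [show (s + t).natAbs * s.natAbs * t.natAbs = s.natAbs * t.natAbs * (s + t).natAbs by ring]
      exact hdv


lemma pr_dvd_iter (S : Step) (hS : ∀ x, pr x ∣ pr (S.T x)) (j : ℕ) (x : ℤ × ℤ) :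
    pr x ∣ pr (S.T^[j] x) := by
  induction j with
  | zero => exact dvd_rfl
  | succ j ih => rw [Function.iterate_succ_apply']; exact ih.trans (hS _)

theorem trans_of_step (S : Step) (hSd : ∀ x, pr x ∣ pr (S.T x)) {p q r : ℕ} (hp : 1 ≤ p ∧ p ≤ 6) (hq : 1 ≤ q ∧ q ≤ 6)
    (hr : 1 ≤ r ∧ r ≤ 6)
    (hshape : ∀ j, 2 ≤ j → ∃ K1 : ℕ, ∀ a b c : ℕ, 0 < a → 0 < b → a + b = c →
      Shape p q r (K1 * c ^ 4) (S.T^[j] ((a : ℤ), (b : ℤ)))) {δ : ℝ} (hδ : 0 < δ) :
    ∃ D : ℕ, Trans (AlmostPowers p q r δ) D := by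
  obtain ⟨j0, hj0⟩ := exists_nat_gt (8 / δ)
  set j := j0 + 2 with hj
  obtain ⟨K1, hK1⟩ := hshape j (by omega)
  obtain ⟨K, n0, hK, hiter⟩ := iter S j
  set D := S.d ^ j with hD
  have hDge : j0 ≤ D := by
    calc j0 ≤ j := by omega
      _ ≤ 2 ^ j := Nat.lt_two_pow_self.le
      _ ≤ S.d ^ j := Nat.pow_le_pow_left S.hd _
  have hD1 : 1 ≤ D := Nat.one_le_pow _ _ (by have := S.hd; omega)
  have hDδ : 4 / (D : ℝ) ≤ δ / 2 := by
    have h1 : 8 / δ < D := lt_of_lt_of_le hj0 (by exact_mod_cast hDge)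
    have hD0 : (0 : ℝ) < D := by exact_mod_cast hD1
    rw [div_lt_iff₀ hδ] at h1
    rw [div_le_iff₀ hD0]
    linarith
  set K3 : ℕ := 2 ^ D * K ^ 2 with hK3
  have hK3pos : 0 < K3 := by positivity
  set K4 : ℝ := (K1 * K ^ 6 : ℝ) * (K3 : ℝ) ^ (δ / 2) with hK4
  have hK40 : 0 ≤ K4 := by positivity
  obtain ⟨n2, hn2⟩ := exists_nat_ge (K4 ^ (2 / δ))
  refine ⟨D, hD1, K3, K.factorial, 2 * n0 + K3 * n2 + 1, (by omega), Nat.factorial_pos K, ?_⟩
  intro a b c ha hb hab hc hcn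
  set x : ℤ × ℤ := ((a : ℤ), (b : ℤ)) with hx
  have hcpos : 0 < c := by omega
  have hprx : pr x = ((a * b * c : ℕ) : ℤ) := by
    unfold pr; rw [hx, ← hc]; push_cast; ring
  have hpr0 : pr x ≠ 0 := by
    rw [hprx]; exact_mod_cast (by positivity : a * b * c ≠ 0)
  have hszc : sz x ≤ c := by
    apply max_le
    · show |(a : ℤ)| ≤ c
      rw [Nat.abs_cast]; exact_mod_cast (by omega : a ≤ c)
    · show |(b : ℤ)| ≤ c
      rw [Nat.abs_cast]; exact_mod_cast (by omega : b ≤ c)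
  have hcsz : (c : ℤ) ≤ 2 * sz x := by
    have h1 : (a : ℤ) ≤ sz x := le_trans (le_abs_self _) (le_max_left _ _)
    have h2 : (b : ℤ) ≤ sz x := le_trans (le_abs_self _) (le_max_right _ _)
    rw [← hc]; push_cast; linarith
  have hg1 : Int.gcd x.1 x.2 = 1 := by
    show Int.gcd (a : ℤ) (b : ℤ) = 1
    rw [Int.gcd_natCast_natCast]; exact hab
  have hn : (n0 : ℤ) ≤ sz x := by
    have : (2 * (n0 : ℤ)) ≤ c := by exact_mod_cast (by omega : 2 * n0 ≤ c)
    linarith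
  obtain ⟨g1, g2, g3, g4, g5⟩ := hiter x hpr0 hg1 hn
  set z := S.T^[j] x with hz
  have hSh : Shape p q r (K1 * c ^ 4) z := hK1 a b c ha hb hc
  obtain ⟨a', b', c', ha', hb', hab', hc', ⟨u, v, w, y0, y1, y2, hperm, hu, hv, hw⟩, hszz, hRz,
    hcup, hprm⟩ := extract2 hp hq hr g1 g2 hSh
  have hcD : c ^ D ≤ K3 * c' := by
    have : (c : ℤ) ^ D ≤ K3 * c' := by
      calc (c : ℤ) ^ D ≤ (2 * sz x) ^ D := by gcongr
        _ = 2 ^ D * sz x ^ D := mul_pow _ _ _
        _ ≤ 2 ^ D * (K * sz z) := by gcongr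
        _ ≤ 2 ^ D * (K * (K * c')) := by gcongr
        _ = _ := by rw [hK3]; push_cast; ring
    exact_mod_cast this
  have hc'pos : 0 < c' := by omega
  -- the size of the coefficients
  have hc'R : (0 : ℝ) < c' := by exact_mod_cast hc'pos
  have hcR : (0 : ℝ) < c := by exact_mod_cast hcpos
  have hc'1 : (1 : ℝ) ≤ c' := by exact_mod_cast hc'pos
  have hK3R : (1 : ℝ) ≤ K3 := by exact_mod_cast hK3pos
  have hbig : K4 ≤ (c' : ℝ) ^ (δ / 2) := by
    have h1 : c ≤ K3 * c' := le_trans (Nat.le_self_pow (by omega) c) hcD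
    have h2 : K3 * n2 ≤ K3 * c' := by omega
    have h3 : n2 ≤ c' := Nat.le_of_mul_le_mul_left h2 hK3pos
    have h4 : K4 ^ (2 / δ) ≤ c' := hn2.trans (by exact_mod_cast h3)
    have h5 : (K4 ^ (2 / δ)) ^ (δ / 2) ≤ (c' : ℝ) ^ (δ / 2) := by gcongr
    rw [← Real.rpow_mul hK40] at h5
    have e : 2 / δ * (δ / 2) = 1 := by field_simp
    rwa [e, Real.rpow_one] at h5
  have hcoef : ((K1 * c ^ 4 * K ^ 6 : ℕ) : ℝ) ≤ (c' : ℝ) ^ δ := by
    have h1 : (c : ℝ) ^ (4 : ℝ) ≤ ((K3 : ℝ) * c') ^ (δ / 2) := by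
      have h2 : (c : ℝ) ≤ ((K3 : ℝ) * c') ^ (1 / (D : ℝ)) := by
        have h3 : ((c : ℝ) ^ D) ^ (1 / (D : ℝ)) ≤ ((K3 : ℝ) * c') ^ (1 / (D : ℝ)) := by
          have : (c : ℝ) ^ D ≤ (K3 : ℝ) * c' := by exact_mod_cast hcD
          gcongr
        rw [← Real.rpow_natCast, ← Real.rpow_mul hcR.le, mul_one_div_cancel
          (by exact_mod_cast (by omega : D ≠ 0)), Real.rpow_one] at h3
        exact h3
      calc (c : ℝ) ^ (4 : ℝ) ≤ (((K3 : ℝ) * c') ^ (1 / (D : ℝ))) ^ (4 : ℝ) := by gcongr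
        _ = ((K3 : ℝ) * c') ^ (4 / (D : ℝ)) := by
            rw [← Real.rpow_mul (by positivity)]; congr 1; ring
        _ ≤ ((K3 : ℝ) * c') ^ (δ / 2) := by
            apply Real.rpow_le_rpow_of_exponent_le _ hDδ
            nlinarith
    calc ((K1 * c ^ 4 * K ^ 6 : ℕ) : ℝ) = (K1 * K ^ 6 : ℝ) * (c : ℝ) ^ (4 : ℝ) := by
          rw [show (c : ℝ) ^ (4 : ℝ) = (c : ℝ) ^ (4 : ℕ) by
            rw [← Real.rpow_natCast]; norm_num]
          push_cast; ring
      _ ≤ (K1 * K ^ 6 : ℝ) * (((K3 : ℝ) * c') ^ (δ / 2)) := by gcongr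
      _ = K4 * (c' : ℝ) ^ (δ / 2) := by
          rw [Real.mul_rpow (by positivity) (by positivity), hK4]; ring
      _ ≤ (c' : ℝ) ^ (δ / 2) * (c' : ℝ) ^ (δ / 2) := by gcongr
      _ = (c' : ℝ) ^ δ := by rw [← Real.rpow_add hc'R]; congr 1; ring
  have hco : ∀ t : ℕ, t ≤ K1 * c ^ 4 * K ^ 6 → (t : ℝ) ≤ (c' : ℝ) ^ δ := fun t ht =>
    le_trans (by exact_mod_cast ht) hcoef
  refine ⟨a', b', c', ha', hb', hab', hc', ⟨u, v, w, y0, y1, y2, hperm, hco u hu, hco v hv,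
    hco w hw⟩, hcD, ?_, ?_, ?_⟩
  rotate_right
  · intro l hl hd
    apply hprm l hl
    have h1 : (l : ℤ) ∣ pr x := by rw [hprx]; exact_mod_cast hd
    exact h1.trans (pr_dvd_iter S hSd j x)
  · have h2 : (c' : ℤ) ≤ K3 * (c : ℤ) ^ D := by
      have h2D : (2 : ℤ) ≤ 2 ^ D := by
        calc (2 : ℤ) = 2 ^ 1 := (pow_one _).symm
          _ ≤ 2 ^ D := pow_le_pow_right₀ (by norm_num) hD1
      have hKK : (K : ℤ) ≤ K ^ 2 := by exact_mod_cast Nat.le_self_pow (by norm_num) K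
      calc (c' : ℤ) ≤ 2 * sz z := hcup
        _ ≤ 2 * (K * sz x ^ D) := by gcongr
        _ = 2 * K * sz x ^ D := by ring
        _ ≤ 2 ^ D * K ^ 2 * (c : ℤ) ^ D := by
            have hs0 := sz_nonneg x
            gcongr
        _ = _ := by rw [hK3]; push_cast; ring
    exact_mod_cast h2
  have : (R (a' * b' * c') : ℤ) ≤ K3 * R (a * b * c) * (c : ℤ) ^ (D - 1) := by
    have hRz' : (R (a' * b' * c') : ℤ) ≤ R (pr z).natAbs := by exact_mod_cast hRz
    have hKK3 : (K : ℤ) ≤ K3 := by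
      have h1 : K ≤ K3 := by
        rw [hK3]
        calc K = 1 * K := (one_mul _).symm
          _ ≤ 2 ^ D * K ^ 2 := Nat.mul_le_mul Nat.one_le_two_pow (Nat.le_self_pow (by norm_num) K)
      exact_mod_cast h1
    have hs0 := sz_nonneg x
    calc (R (a' * b' * c') : ℤ) ≤ R (pr z).natAbs := hRz'
      _ ≤ K * R (pr x).natAbs * sz x ^ (D - 1) := g5
      _ = K * R (a * b * c) * sz x ^ (D - 1) := by rw [hprx, Int.natAbs_natCast]
      _ ≤ K3 * R (a * b * c) * (c : ℤ) ^ (D - 1) := by gcongr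
  exact_mod_cast this



theorem trans_three (δ : ℝ) (hδ : 0 < δ) : ∃ D : ℕ, Trans (AlmostPowers 3 3 3 δ) D := by
  refine trans_of_step step33 (fun x => ?_) (by norm_num) (by norm_num) (by norm_num) ?_ hδ
  · show pr x ∣ pr (T33 x)
    rw [pr33, dvd_neg]; exact dvd_mul_right _ _

  intro j _
  refine ⟨1, fun a b c ha hb hc => ?_⟩
  obtain ⟨y0, y1, y2, h0, h1, h2⟩ := shape33 j ((a : ℤ), (b : ℤ))
  have hc4 : c ≤ 1 * c ^ 4 := by rw [one_mul]; exact Nat.le_self_pow (by norm_num) c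
  refine ⟨(a : ℤ) + b, a, b, y0, y1, y2, h0, h1, h2, ?_, ?_, ?_⟩
  · have : ((a : ℤ) + b).natAbs = c := by omega
    omega
  · simp only [Int.natAbs_natCast]; omega
  · simp only [Int.natAbs_natCast]; omega


theorem trans_four (δ : ℝ) (hδ : 0 < δ) : ∃ D : ℕ, Trans (AlmostPowers 2 4 4 δ) D := by
  refine trans_of_step step24 (fun x => ?_) (by norm_num) (by norm_num) (by norm_num) ?_ hδ
  · show pr x ∣ pr (T24 x)
    rw [pr24, dvd_neg]; exact ⟨4 * (x.1 + x.2) * (x.1 - x.2) ^ 2, by ring⟩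

  intro j hj
  obtain ⟨i, rfl⟩ : ∃ i, j = i + 2 := ⟨j - 2, by omega⟩
  refine ⟨4 ^ (i + 2), fun a b c ha hb hc => ?_⟩
  obtain ⟨y0, y1, y2, h0, h1, h2⟩ := shape24 i ((a : ℤ), (b : ℤ))
  have hcpos : 0 < c := by omega
  have hc4 : 1 ≤ 4 ^ (i + 2) * c ^ 4 := Nat.one_le_iff_ne_zero.mpr (by positivity)
  refine ⟨1, (-4) ^ (i + 2) * ((a : ℤ) * b * ((a : ℤ) + b) ^ 2), 1, y0, y1, y2,
    by rw [one_mul]; exact h0, h1, by rw [one_mul]; exact h2, by simpa using hc4, ?_,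
    by simpa using hc4⟩
  have e : ((-4 : ℤ) ^ (i + 2) * ((a : ℤ) * b * ((a : ℤ) + b) ^ 2)).natAbs
      = 4 ^ (i + 2) * (a * b * c ^ 2) := by
    rw [Int.natAbs_mul, Int.natAbs_pow, Int.natAbs_mul, Int.natAbs_mul, Int.natAbs_pow,
      Int.natAbs_natCast, Int.natAbs_natCast, show ((a : ℤ) + b).natAbs = c by omega]
    rfl
  rw [e]
  gcongr
  calc a * b * c ^ 2 ≤ c * c * c ^ 2 := by gcongr <;> omega
    _ = c ^ 4 := by ring


theorem trans_six (δ : ℝ) (hδ : 0 < δ) : ∃ D : ℕ, Trans (AlmostPowers 2 3 6 δ) D := by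
  refine trans_of_step step26 (fun x => ?_) (by norm_num) (by norm_num) (by norm_num) ?_ hδ
  · show pr x ∣ pr (T26 x)
    rw [pr26]; exact ⟨27 * x.1 * (x.1 + 4 * x.2) ^ 3 * (x.1 - 8 * x.2) ^ 2, by ring⟩

  intro j hj
  obtain ⟨i, rfl⟩ : ∃ i, j = i + 1 := ⟨j - 1, by omega⟩
  refine ⟨27 ^ (i + 1), fun a b c ha hb hc => ?_⟩
  obtain ⟨y0, y1, y2, h0, h1, h2⟩ := shape26 i ((a : ℤ), (b : ℤ))
  have hcpos : 0 < c := by omega
  have hc4 : c ^ 4 ≤ 27 ^ (i + 1) * c ^ 4 := Nat.le_mul_of_pos_left _ (by positivity)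
  have hc1 : c ≤ c ^ 4 := Nat.le_self_pow (by norm_num) c
  refine ⟨(-1) ^ (i + 1) * ((a : ℤ) + b), 1, 27 ^ (i + 1) * ((b : ℤ) * (a : ℤ) ^ 2), y0, y1, y2,
    h0, by rw [one_mul]; exact h1, h2, ?_, ?_, ?_⟩
  · rw [Int.natAbs_mul, Int.natAbs_pow, show ((a : ℤ) + b).natAbs = c by omega]
    simp
    omega
  · simp
    omega
  · rw [Int.natAbs_mul, Int.natAbs_pow, Int.natAbs_mul, Int.natAbs_pow, Int.natAbs_natCast,
      Int.natAbs_natCast]
    show 27 ^ (i + 1) * (b * a ^ 2) ≤ 27 ^ (i + 1) * c ^ 4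
    gcongr
    calc b * a ^ 2 ≤ c * c ^ 2 := by gcongr <;> omega
      _ = c ^ 3 := by ring
      _ ≤ c ^ 4 := Nat.pow_le_pow_right hcpos (by norm_num)


end Pool.Agent.Q239.ABC
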