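import Mathlib
import Pool.Agent.Q239.H.Trans

/-! The inequality with the radical divided by a power of its logarithm. -/

namespace Pool.Agent.Q239.ABC

/-- `H(n) = γ(n) / (log γ(n)) ^ ω(n)` -/
noncomputable def Hf (n : ℕ) : ℝ := (R n : ℝ) / (Real.log (R n)) ^ n.primeFactors.card

/-- the `H`-inequality for the triples in the class `P` -/
def HFor (P : ℕ → ℕ → ℕ → Prop) : Prop :=
  ∀ ε : ℝ, 0 < ε → ∃ C : ℝ, ∀ a b c : ℕ, 0 < a → 0 < b → Nat.Coprime a b → a + b = c →
    P a b c → (c : ℝ) < C * Hf (a * b * c) ^ (1 + ε)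

/-- the logarithm of `H` -/
noncomputable def lH (n : ℕ) : ℝ :=
  Real.log (R n) - n.primeFactors.card * Real.log (Real.log (R n))

lemma Hf_pos {n : ℕ} (h : 2 ≤ R n) : 0 < Hf n := by
  unfold Hf
  have h1 : (1 : ℝ) < R n := by exact_mod_cast h
  have h2 := Real.log_pos h1
  positivity

lemma log_Hf {n : ℕ} (h : 2 ≤ R n) : Real.log (Hf n) = lH n := by
  unfold Hf lH
  have h1 : (1 : ℝ) < R n := by exact_mod_cast h
  have h2 := Real.log_pos h1
  rw [Real.log_div (by positivity) (by positivity), Real.log_pow]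

lemma two_pow_card_le_R (n : ℕ) : 2 ^ n.primeFactors.card ≤ R n := by
  unfold R
  calc 2 ^ n.primeFactors.card = ∏ _p ∈ n.primeFactors, 2 := by rw [Finset.prod_const]
    _ ≤ ∏ p ∈ n.primeFactors, p :=
        Finset.prod_le_prod' fun p hp => (Nat.prime_of_mem_primeFactors hp).two_le

lemma card_le_log (n : ℕ) : (n.primeFactors.card : ℝ) * Real.log 2 ≤ Real.log (R n) := by
  rw [← Real.log_pow]
  apply Real.log_le_log (by positivity)
  exact_mod_cast two_pow_card_le_R n

/-- comparison of `H` for two numbers -/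
lemma lH_le {K M : ℕ} (hK : 1 ≤ K) (hM : 1 ≤ M) : ∃ A : ℝ, ∀ n m e : ℕ, n ≠ 0 → m ≠ 0 →
    1 ≤ e → 2 ≤ R n → 3 ≤ R m → R m ≤ K * R n * e →
    (∀ p : ℕ, p.Prime → p ∣ n → p ∣ M * m) →
    lH m ≤ A + M.primeFactors.card * Real.log (Real.log (R m)) + lH n + Real.log e := by
  have hl2 : 0 < Real.log 2 := Real.log_pos (by norm_num)
  have hlM : 0 ≤ Real.log M := Real.log_natCast_nonneg M
  refine ⟨Real.log K + (Real.log M / Real.log 2) * (1 + Real.log M), ?_⟩
  intro n m e hn hm he hRn hRm hR hp
  have hgn : (1 : ℝ) < R n := by exact_mod_cast hRn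
  have hgm : (3 : ℝ) ≤ R m := by exact_mod_cast hRm
  have hLn : 0 < Real.log (R n) := Real.log_pos hgn
  have hLm : 1 ≤ Real.log (R m) := by
    rw [Real.le_log_iff_exp_le (by linarith)]
    have := Real.exp_one_lt_d9
    linarith
  have hLLm : 0 ≤ Real.log (Real.log (R m)) := Real.log_nonneg hLm
  have heR : (1 : ℝ) ≤ e := by exact_mod_cast he
  have hKR : (1 : ℝ) ≤ K := by exact_mod_cast hK
  have hMR : (1 : ℝ) ≤ M := by exact_mod_cast hM
  -- the radical
  have h1 : Real.log (R m) ≤ Real.log K + Real.log (R n) + Real.log e := by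
    rw [← Real.log_mul (by positivity) (by positivity), ← Real.log_mul (by positivity)
      (by positivity)]
    apply Real.log_le_log (by positivity)
    exact_mod_cast hR
  have h2 : Real.log (R n) ≤ Real.log M + Real.log (R m) := by
    rw [← Real.log_mul (by positivity) (by positivity)]
    apply Real.log_le_log (by positivity)
    have : R n ≤ M * R m * 1 := R_le_of (by omega) one_ne_zero (by simpa using hp) hm
    rw [mul_one] at this
    exact_mod_cast this
  -- the number of primes
  have h3 : (n.primeFactors.card : ℝ) ≤ M.primeFactors.card + m.primeFactors.card := by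
    have : n.primeFactors ⊆ M.primeFactors ∪ m.primeFactors := by
      intro p hpn
      have hpp := Nat.prime_of_mem_primeFactors hpn
      have hpd := hp p hpp (Nat.dvd_of_mem_primeFactors hpn)
      rcases hpp.dvd_mul.mp hpd with h | h
      · exact Finset.mem_union_left _ (Nat.mem_primeFactors.mpr ⟨hpp, h, by omega⟩)
      · exact Finset.mem_union_right _ (Nat.mem_primeFactors.mpr ⟨hpp, h, hm⟩)
    have h4 := (Finset.card_le_card this).trans (Finset.card_union_le _ _)
    exact_mod_cast h4
  -- the logarithm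
  have h4 : Real.log (Real.log (R n)) ≤ Real.log (Real.log (R m)) +
      Real.log M / Real.log (R m) := by
    calc Real.log (Real.log (R n)) ≤ Real.log (Real.log (R m) * (1 + Real.log M / Real.log (R m))) := by
          apply Real.log_le_log hLn
          rw [mul_add, mul_one, mul_div_cancel₀ _ (by linarith)]
          linarith
      _ = Real.log (Real.log (R m)) + Real.log (1 + Real.log M / Real.log (R m)) := by
          rw [Real.log_mul (by linarith) (by positivity)]
      _ ≤ _ := by
          gcongr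
          have := Real.log_le_sub_one_of_pos (x := 1 + Real.log M / Real.log (R m))
            (by positivity)
          linarith
  have h5 : (n.primeFactors.card : ℝ) * (Real.log M / Real.log (R m)) ≤
      (Real.log M / Real.log 2) * (1 + Real.log M) := by
    have h6 : (n.primeFactors.card : ℝ) ≤ (Real.log M + Real.log (R m)) / Real.log 2 := by
      rw [le_div_iff₀ hl2]
      exact (card_le_log n).trans h2
    calc (n.primeFactors.card : ℝ) * (Real.log M / Real.log (R m))
        ≤ (Real.log M + Real.log (R m)) / Real.log 2 * (Real.log M / Real.log (R m)) := by gcongr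
      _ = (Real.log M / Real.log 2) * (Real.log M / Real.log (R m) + 1) := by
          field_simp
      _ ≤ (Real.log M / Real.log 2) * (Real.log M + 1) := by
          gcongr
          exact div_le_self hlM hLm
      _ = _ := by ring
  have h7 : (n.primeFactors.card : ℝ) * Real.log (Real.log (R n)) ≤
      (n.primeFactors.card : ℝ) * Real.log (Real.log (R m)) +
        (Real.log M / Real.log 2) * (1 + Real.log M) := by
    calc (n.primeFactors.card : ℝ) * Real.log (Real.log (R n))
        ≤ (n.primeFactors.card : ℝ) * (Real.log (Real.log (R m)) +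
            Real.log M / Real.log (R m)) := by gcongr
      _ = (n.primeFactors.card : ℝ) * Real.log (Real.log (R m)) +
          (n.primeFactors.card : ℝ) * (Real.log M / Real.log (R m)) := by ring
      _ ≤ _ := by gcongr
  have h8 : (n.primeFactors.card : ℝ) * Real.log (Real.log (R m)) ≤
      (M.primeFactors.card + m.primeFactors.card) * Real.log (Real.log (R m)) := by gcongr
  unfold lH
  nlinarith

/-- the radical of a triple other than `(1, 1, 2)` -/
lemma three_le_R {a b c : ℕ} (ha : 0 < a) (hb : 0 < b) (hab : Nat.Coprime a b) (hc : a + b = c)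
    (h3 : 3 ≤ c) : 3 ≤ R (a * b * c) := by
  have hn : a * b * c ≠ 0 := by positivity
  by_contra hR
  push Not at hR
  have h1 : ∀ p : ℕ, p.Prime → p ∣ a * b * c → p = 2 := by
    intro p hp hd
    have h2 : p ≤ R (a * b * c) := by
      apply Nat.le_of_dvd (R_pos _)
      exact Finset.dvd_prod_of_mem (fun p : ℕ => p) (Nat.mem_primeFactors.mpr ⟨hp, hd, hn⟩)
    have := hp.two_le
    omega
  have hc2 : 2 ∣ c := by
    obtain ⟨p, hp, hd⟩ := Nat.exists_prime_and_dvd (show c ≠ 1 by omega)
    have := h1 p hp (Dvd.dvd.mul_left hd _)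
    rwa [this] at hd
  have ha1 : a = 1 := by
    by_contra hne
    obtain ⟨p, hp, hd⟩ := Nat.exists_prime_and_dvd hne
    have := h1 p hp (Dvd.dvd.mul_right (Dvd.dvd.mul_right hd _) _)
    rw [this] at hd
    have h4 : 2 ∣ b := by omega
    have := Nat.dvd_gcd hd h4
    rw [hab] at this
    omega
  have hb1 : b = 1 := by
    by_contra hne
    obtain ⟨p, hp, hd⟩ := Nat.exists_prime_and_dvd hne
    have := h1 p hp (Dvd.dvd.mul_right (Dvd.dvd.mul_left hd _) _)
    rw [this] at hd
    omega
  omega

lemma two_le_R {a b c : ℕ} (ha : 0 < a) (hb : 0 < b) (hc : a + b = c) :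
    2 ≤ R (a * b * c) := by
  have hcpos : 0 < c := by omega
  have hn : a * b * c ≠ 0 := by positivity
  obtain ⟨p, hp, hd⟩ := Nat.exists_prime_and_dvd (show c ≠ 1 by omega)
  have h2 : p ≤ R (a * b * c) := by
    apply Nat.le_of_dvd (R_pos _)
    exact Finset.dvd_prod_of_mem (fun p : ℕ => p)
      (Nat.mem_primeFactors.mpr ⟨hp, Dvd.dvd.mul_left hd _, hn⟩)
  exact hp.two_le.trans h2

/-- finitely many triples do not matter -/
lemma HFor_of_large {P : ℕ → ℕ → ℕ → Prop} (h : ∀ ε : ℝ, 0 < ε → ∃ (C : ℝ) (N : ℕ),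
    ∀ a b c : ℕ, 0 < a → 0 < b → Nat.Coprime a b → a + b = c → P a b c → N ≤ c →
      Real.log c < C + (1 + ε) * lH (a * b * c)) : HFor P := by
  intro ε hε
  obtain ⟨C, N, h⟩ := h ε hε
  set F : ℕ → ℕ → ℝ := fun a b => ((a + b : ℕ) : ℝ) / Hf (a * b * (a + b)) ^ (1 + ε) with hF
  set S : ℝ := ∑ a ∈ Finset.range (N + 1), ∑ b ∈ Finset.range (N + 1), |F a b| with hS
  have hS0 : 0 ≤ S := by positivity
  refine ⟨Real.exp C + S + 1, ?_⟩
  intro a b c ha hb hab hc hP
  have hR := two_le_R ha hb hc
  have hH := Hf_pos hR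
  have hHp : 0 < Hf (a * b * c) ^ (1 + ε) := by positivity
  by_cases hN : N ≤ c
  · have h1 := h a b c ha hb hab hc hP hN
    have hc0 : (0 : ℝ) < c := by
      have : 0 < c := by omega
      exact_mod_cast this
    have h2 : (c : ℝ) < Real.exp C * Hf (a * b * c) ^ (1 + ε) := by
      rw [← Real.log_lt_log_iff hc0 (by positivity), Real.log_mul (by positivity) (by positivity),
        Real.log_exp, Real.log_rpow hH, log_Hf hR]
      exact h1
    calc (c : ℝ) < Real.exp C * Hf (a * b * c) ^ (1 + ε) := h2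
      _ ≤ _ := by gcongr; linarith
  · push Not at hN
    have h1 : |F a b| ≤ S := by
      rw [hS]
      calc |F a b| ≤ ∑ b ∈ Finset.range (N + 1), |F a b| :=
            Finset.single_le_sum (f := fun b => |F a b|) (fun _ _ => abs_nonneg _)
              (Finset.mem_range.mpr (by omega))
        _ ≤ _ := Finset.single_le_sum (f := fun a => ∑ b ∈ Finset.range (N + 1), |F a b|)
              (fun _ _ => Finset.sum_nonneg fun _ _ => abs_nonneg _)
              (Finset.mem_range.mpr (by omega))
    have h2 : F a b * Hf (a * b * c) ^ (1 + ε) = c := by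
      simp only [hF, hc]
      rw [div_mul_cancel₀ _ hHp.ne']
    calc (c : ℝ) = F a b * Hf (a * b * c) ^ (1 + ε) := h2.symm
      _ ≤ S * Hf (a * b * c) ^ (1 + ε) := by
          gcongr; exact (le_abs_self _).trans h1
      _ < _ := by
          have := Real.exp_pos C
          exact mul_lt_mul_of_pos_right (by linarith) hHp

/-- iterated logarithms are small -/
lemma loglog_small (k D : ℕ) (K δ : ℝ) (hδ : 0 < δ) : ∃ B : ℝ, ∀ h : ℝ, 0 ≤ h →
    ∀ L : ℝ, 1 ≤ L → L ≤ K + D * h → k * Real.log L ≤ B + δ * h := by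
  set s : ℝ := δ / (k * D + 1) with hs
  have hs0 : 0 < s := by positivity
  refine ⟨k * (s * |K| + |Real.log s| + 1), ?_⟩
  intro h hh L hL hLK
  have h1 : Real.log L ≤ s * L + |Real.log s| := by
    have h2 := Real.log_le_sub_one_of_pos (x := s * L) (by positivity)
    rw [Real.log_mul hs0.ne' (by linarith)] at h2
    have := neg_abs_le (Real.log s)
    linarith
  have h3 : s * L ≤ s * |K| + s * D * h := by
    calc s * L ≤ s * (K + D * h) := by gcongr
      _ ≤ s * (|K| + D * h) := by gcongr; exact le_abs_self K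
      _ = _ := by ring
  have hkd : k * (s * D) ≤ δ := by
    rw [hs]
    have : k * (δ / (k * D + 1) * D) = δ * (k * D / (k * D + 1)) := by ring
    rw [this]
    apply mul_le_of_le_one_right hδ.le
    rw [div_le_one (by positivity)]
    linarith
  calc k * Real.log L ≤ k * (s * |K| + s * D * h + |Real.log s|) := by gcongr; linarith
    _ = k * (s * |K| + |Real.log s|) + k * (s * D) * h := by ring
    _ ≤ k * (s * |K| + |Real.log s|) + δ * h := by gcongr
    _ ≤ _ := by
        have : (0 : ℝ) ≤ k := by positivity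
        nlinarith

set_option maxHeartbeats 1000000 in
theorem Trans.H {P : ℕ → ℕ → ℕ → Prop} {D : ℕ} (hT : Trans P D) (hP : HFor P) :
    HFor (fun _ _ _ => True) := by
  obtain ⟨hD, K, M, n0, hK, hM, hT⟩ := hT
  obtain ⟨A, hA⟩ := lH_le hK hM
  apply HFor_of_large
  intro ε hε
  have hD0 : (1 : ℝ) ≤ D := by exact_mod_cast hD
  have hK0 : (1 : ℝ) ≤ K := by exact_mod_cast hK
  set δ : ℝ := ε / (1 + (1 + ε) * (D + 1)) with hδ
  have hden : 0 < 1 + (1 + ε) * ((D : ℝ) + 1) := by positivity
  have hδ0 : 0 < δ := by positivity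
  have hδe : δ * (1 + (1 + ε) * (D + 1)) = ε := by rw [hδ]; field_simp
  have hδ1 : δ ≤ 1 := by
    rw [hδ, div_le_one hden]; nlinarith
  obtain ⟨C', hC'⟩ := hP δ hδ0
  set k := M.primeFactors.card with hk
  obtain ⟨B, hB⟩ := loglog_small k (3 * D) (3 * Real.log K) δ hδ0
  set C1 : ℝ := max C' 1 with hC1
  have hC11 : 1 ≤ C1 := le_max_right _ _
  set θ : ℝ := D - (1 + δ) * (D - 1 + δ) with hθ
  have hθge : 1 - (D + 1) * δ ≤ θ := by rw [hθ]; nlinarith
  have hθ1 : 1 + δ ≤ (1 + ε) * θ := by
    have : 1 + δ ≤ (1 + ε) * (1 - (D + 1) * δ) := by nlinarith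
    nlinarith
  have hθ0 : 0 < θ := by
    by_contra hneg
    push Not at hneg
    nlinarith
  set Cf : ℝ := Real.log K + Real.log C1 + (1 + δ) * (|A| + |B|) with hCf
  have hCf0 : 0 ≤ Cf := by
    have h1 := Real.log_nonneg hK0
    have h2 := Real.log_nonneg hC11
    positivity
  obtain ⟨N1, hN1⟩ := exists_nat_gt (Real.exp (Cf / θ))
  refine ⟨Cf / θ + 1, n0 + 2 * K + 3 * K + N1, ?_⟩
  intro a b c ha hb hab hc _ hn
  obtain ⟨a', b', c', ha', hb', hab', hc', hPP, h1, h2, h3, h4⟩ :=
    hT a b c ha hb hab hc (by omega)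
  have hcpos : 0 < c := by omega
  have hc'pos : 0 < c' := by omega
  have hcR : (0 : ℝ) < c := by exact_mod_cast hcpos
  have hc'R : (0 : ℝ) < c' := by exact_mod_cast hc'pos
  have hc'3 : 3 ≤ c' := by
    have h5 : c ≤ K * c' := (Nat.le_self_pow (by omega) c).trans h1
    by_contra hlt
    push Not at hlt
    have : K * c' ≤ K * 2 := Nat.mul_le_mul_left K (by omega)
    omega
  have hRn := two_le_R ha hb hc
  have hRm := three_le_R ha' hb' hab' hc' hc'3
  have hRm2 : 2 ≤ R (a' * b' * c') := by omega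
  set n := a * b * c with hndef
  set m := a' * b' * c' with hmdef
  have hn0 : n ≠ 0 := by positivity
  have hm0 : m ≠ 0 := by positivity
  have h5 := hA n m (c ^ (D - 1)) hn0 hm0 (Nat.one_le_pow _ _ hcpos) hRn hRm h3 h4
  set h : ℝ := Real.log c with hh
  have hh0 : 0 ≤ h := Real.log_natCast_nonneg c
  have h6 : Real.log ((c ^ (D - 1) : ℕ) : ℝ) = (D - 1) * h := by
    push_cast
    rw [Real.log_pow]
    push_cast [hD]
    ring
  rw [h6] at h5
  have h7 : Real.log c' ≤ Real.log K + D * h := by
    rw [hh, ← Real.log_pow, ← Real.log_mul (by positivity) (by positivity)]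
    apply Real.log_le_log hc'R
    exact_mod_cast h2
  have h8 : D * h ≤ Real.log K + Real.log c' := by
    rw [hh, ← Real.log_pow, ← Real.log_mul (by positivity) (by positivity)]
    apply Real.log_le_log (by positivity)
    exact_mod_cast h1
  have hgm : (3 : ℝ) ≤ R m := by exact_mod_cast hRm
  have hLm : 1 ≤ Real.log (R m) := by
    rw [Real.le_log_iff_exp_le (by linarith)]
    have := Real.exp_one_lt_d9
    linarith
  have h9 : Real.log (R m) ≤ 3 * Real.log c' := by
    have : (R m : ℝ) ≤ (c' : ℝ) ^ 3 := by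
      have h10 : R m ≤ c' ^ 3 := by
        calc R m ≤ m := R_le hm0
          _ ≤ c' * c' * c' := by rw [hmdef]; gcongr <;> omega
          _ = c' ^ 3 := by ring
      exact_mod_cast h10
    calc Real.log (R m) ≤ Real.log ((c' : ℝ) ^ 3) := Real.log_le_log (by linarith) this
      _ = 3 * Real.log c' := by rw [Real.log_pow]; norm_num
  have h10 := hB h hh0 (Real.log (R m)) hLm (by push_cast; linarith)
  have h11 := hC' a' b' c' ha' hb' hab' hc' hPP
  have hHm := Hf_pos hRm2
  have h12 : Real.log c' ≤ Real.log C1 + (1 + δ) * lH m := by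
    rw [← log_Hf hRm2, ← Real.log_rpow hHm, ← Real.log_mul (by positivity) (by positivity)]
    apply Real.log_le_log hc'R
    refine h11.le.trans ?_
    gcongr
    exact le_max_left _ _
  have hAa := le_abs_self A
  have hBb := le_abs_self B
  have h13 : lH m ≤ |A| + |B| + δ * h + lH n + (D - 1) * h := by linarith
  have h14 : D * h ≤ Cf + (1 + δ) * (D - 1 + δ) * h + (1 + δ) * lH n := by
    have h15 : (1 + δ) * lH m ≤ (1 + δ) * (|A| + |B| + δ * h + lH n + (D - 1) * h) := by
      gcongr
    have e : (1 + δ) * (|A| + |B| + δ * h + lH n + (D - 1) * h) =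
      (1 + δ) * (|A| + |B|) + (1 + δ) * (D - 1 + δ) * h + (1 + δ) * lH n := by ring
    rw [e] at h15
    linarith
  have h15 : θ * h ≤ Cf + (1 + δ) * lH n := by rw [hθ]; linarith
  by_cases hl : lH n < 0
  · exfalso
    have h17 : h ≤ Cf / θ := by
      rw [le_div_iff₀ hθ0]
      have : (1 + δ) * lH n ≤ 0 := mul_nonpos_of_nonneg_of_nonpos (by linarith) hl.le
      linarith
    have h18 : (c : ℝ) ≤ Real.exp (Cf / θ) := by
      rw [← Real.log_le_iff_le_exp hcR]
      exact h17
    have h19 : (N1 : ℝ) ≤ c := by exact_mod_cast (by omega : N1 ≤ c)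
    linarith
  · push Not at hl
    have h16 : (1 + δ) * lH n ≤ (1 + ε) * θ * lH n := mul_le_mul_of_nonneg_right hθ1 hl
    have h17 : θ * h ≤ θ * (Cf / θ + (1 + ε) * lH n) := by
      have e : θ * (Cf / θ + (1 + ε) * lH n) = Cf + (1 + ε) * θ * lH n := by
        rw [mul_add, mul_div_cancel₀ _ hθ0.ne']; ring
      rw [e]
      exact h15.trans (add_le_add_right h16 Cf)
    have h18 := le_of_mul_le_mul_left h17 hθ0
    calc h ≤ Cf / θ + (1 + ε) * lH n := h18
      _ < _ := by rw [add_lt_add_iff_right]; exact lt_add_one _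

theorem H_of_all {P : ℕ → ℕ → ℕ → Prop} (h : HFor (fun _ _ _ => True)) : HFor P := by
  intro ε hε
  obtain ⟨κ, hκ⟩ := h ε hε
  exact ⟨κ, fun a b c ha hb hab hc _ => hκ a b c ha hb hab hc trivial⟩

end Pool.Agent.Q239.ABC
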