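import Mathlib
import Pool.Agent.Q239.H.Trans

/-! The quality with an error term of the size of a square root. -/

namespace Pool.Agent.Q239.ABC

/-- `T = log (c / rad (abc)) / √(log c)` -/
noncomputable def Tq (a b c : ℕ) : ℝ := Real.log (c / R (a * b * c)) / √(Real.log c)

/-- `T < τ` for all large triples of the class `P` -/
def TFor (P : ℕ → ℕ → ℕ → Prop) (τ : ℝ) : Prop :=
  ∃ C₀ : ℝ, ∀ a b c : ℕ, 0 < a → 0 < b → Nat.Coprime a b → a + b = c → P a b c → C₀ < c →
    Tq a b c < τ

theorem Trans.T {P : ℕ → ℕ → ℕ → Prop} {D : ℕ} (hT : Trans P D) {τ η : ℝ} (hτ : 0 ≤ τ)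
    (hη : 0 < η) (hP : TFor P τ) : TFor (fun _ _ _ => True) (√D * τ + η) := by
  obtain ⟨hD, K, M, n0, hK, -, hT⟩ := hT
  obtain ⟨C₀, hC₀⟩ := hP
  have hD0 : (1 : ℝ) ≤ D := by exact_mod_cast hD
  have hK0 : (1 : ℝ) ≤ K := by exact_mod_cast hK
  have hlK := Real.log_nonneg hK0
  set B : ℝ := 2 * Real.log K + τ * √(Real.log K) with hB
  have hB0 : 0 ≤ B := by positivity
  refine ⟨n0 + K * (|C₀| + 2) + Real.exp ((B / η) ^ 2 + 1), ?_⟩
  intro a b c ha hb hab hc _ hlarge
  have hexp := Real.exp_pos ((B / η) ^ 2 + 1)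
  have hC0a := abs_nonneg C₀
  have hn : n0 ≤ c := by
    have : (n0 : ℝ) < c := by
      have : 0 ≤ (K : ℝ) * (|C₀| + 2) := by positivity
      linarith
    exact_mod_cast this.le
  obtain ⟨a', b', c', ha', hb', hab', hc', hPP, h1, h2, h3, -⟩ := hT a b c ha hb hab hc hn
  have hcpos : 0 < c := by omega
  have hc'pos : 0 < c' := by omega
  have hcR : (0 : ℝ) < c := by exact_mod_cast hcpos
  have hc'R : (0 : ℝ) < c' := by exact_mod_cast hc'pos
  have hc'1 : (1 : ℝ) ≤ c' := by exact_mod_cast hc'pos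
  set h : ℝ := Real.log c with hh
  have hbig : (B / η) ^ 2 + 1 < h := by
    rw [hh, Real.lt_log_iff_exp_lt hcR]
    have : 0 ≤ (K : ℝ) * (|C₀| + 2) := by positivity
    have : (0 : ℝ) ≤ n0 := by positivity
    linarith
  have hh0 : 0 < h := by nlinarith [sq_nonneg (B / η)]
  have hsq : B / η < √h := by
    rw [Real.lt_sqrt (by positivity)]; linarith
  have hsq0 : 0 < √h := Real.sqrt_pos.mpr hh0
  have hc'big : |C₀| + 2 < c' := by
    have h5 : c ≤ K * c' := (Nat.le_self_pow (by omega) c).trans h1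
    have h6 : (c : ℝ) ≤ K * c' := by exact_mod_cast h5
    have h7 : (K : ℝ) * (|C₀| + 2) < K * c' := by
      have : (0 : ℝ) ≤ n0 := by positivity
      linarith
    exact lt_of_mul_lt_mul_left h7 (by positivity)
  have h4 := hC₀ a' b' c' ha' hb' hab' hc' hPP (by linarith [le_abs_self C₀])
  have hlc' : 0 < Real.log c' := Real.log_pos (by linarith)
  have hRn : (0 : ℝ) < R (a * b * c) := by exact_mod_cast R_pos _
  have hRm : (0 : ℝ) < R (a' * b' * c') := by exact_mod_cast R_pos _
  unfold Tq at h4 ⊢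
  rw [div_lt_iff₀ (Real.sqrt_pos.mpr hlc'), Real.log_div hc'R.ne' hRm.ne'] at h4
  rw [div_lt_iff₀ hsq0, Real.log_div hcR.ne' hRn.ne']
  have h7 : Real.log c' ≤ Real.log K + D * h := by
    rw [hh, ← Real.log_pow, ← Real.log_mul (by positivity) (by positivity)]
    apply Real.log_le_log hc'R
    exact_mod_cast h2
  have h8 : D * h ≤ Real.log K + Real.log c' := by
    rw [hh, ← Real.log_pow, ← Real.log_mul (by positivity) (by positivity)]
    apply Real.log_le_log (by positivity)
    exact_mod_cast h1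
  have h9 : Real.log (R (a' * b' * c')) ≤ Real.log K + Real.log (R (a * b * c)) + (D - 1) * h := by
    have e : (D - 1 : ℝ) * h = Real.log ((c : ℝ) ^ (D - 1)) := by
      rw [Real.log_pow]; push_cast [hD]; ring
    rw [e, ← Real.log_mul (by positivity) (by positivity), ← Real.log_mul (by positivity)
      (by positivity)]
    apply Real.log_le_log hRm
    exact_mod_cast h3
  have h10 : √(Real.log c') ≤ √(Real.log K) + √D * √h := by
    calc √(Real.log c') ≤ √(Real.log K + D * h) := Real.sqrt_le_sqrt h7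
      _ ≤ √(Real.log K) + √(D * h) := by
          apply Real.sqrt_le_iff.mpr
          refine ⟨by positivity, ?_⟩
          have e1 := Real.sq_sqrt hlK
          have e2 := Real.sq_sqrt (show 0 ≤ (D : ℝ) * h by positivity)
          nlinarith [mul_nonneg (Real.sqrt_nonneg (Real.log K)) (Real.sqrt_nonneg ((D : ℝ) * h))]
      _ = _ := by rw [Real.sqrt_mul (by positivity)]
  have h11 : τ * √(Real.log c') ≤ τ * (√(Real.log K) + √D * √h) := by gcongr
  have h12 : B < η * √h := by
    rw [div_lt_iff₀ hη] at hsq; linarith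
  have hgoal : h - Real.log (R (a * b * c)) ≤ 2 * Real.log K + (Real.log c' -
      Real.log (R (a' * b' * c'))) := by linarith
  calc h - Real.log (R (a * b * c)) ≤ 2 * Real.log K + (Real.log c' -
        Real.log (R (a' * b' * c'))) := hgoal
    _ < 2 * Real.log K + τ * √(Real.log c') := by gcongr
    _ ≤ 2 * Real.log K + τ * (√(Real.log K) + √D * √h) := by gcongr
    _ = B + √D * τ * √h := by rw [hB]; ring
    _ < η * √h + √D * τ * √h := by gcongr
    _ = _ := by ring

end Pool.Agent.Q239.ABC
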